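import Pool.Agent.L5helper7.DS.Low

/-!
# Base 2: the largest symmetric progression-free sets of words of length `n` have `n` elements

For helper7 (`DigitSymmetric`); the first part is `L5helper7/D3/Carry.lean` in base 2.
-/

set_option autoImplicit false

namespace Pool.Agent.L5helper7.D2

open Finset Equiv
open Pool.Agent.L5helper7.DS (FreeW SymW)

/-- the value of a list of digits, the lowest digit first -/
def num : List (Fin 2) → ℤ
  | [] => 0
  | a :: L => ((a : ℕ) : ℤ) + 2 * num L

theorem num_append (L M : List (Fin 2)) : num (L ++ M) = num L + 2 ^ L.length * num M := by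
  induction L with
  | nil => simp [num]
  | cons a L ih =>
    simp only [List.cons_append, num, ih, List.length_cons, pow_succ]
    ring

/-- the columns `X`, `Z`, `Y` transform the carry `δ` into `δ'` -/
def Blk (δ : ℤ) (X Z Y : List (Fin 2)) (δ' : ℤ) : Prop :=
  X.length = Y.length ∧ Z.length = Y.length ∧ num X + num Z + δ = 2 * num Y + 2 ^ Y.length * δ'

theorem Blk.app {δ δ' δ'' : ℤ} {X Z Y X' Z' Y' : List (Fin 2)} (h : Blk δ X Z Y δ') (h' : Blk δ' X' Z' Y' δ'') :
    Blk δ (X ++ X') (Z ++ Z') (Y ++ Y') δ'' := by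
  obtain ⟨h1, h2, h3⟩ := h
  obtain ⟨h4, h5, h6⟩ := h'
  refine ⟨by simp [h1, h4], by simp [h2, h5], ?_⟩
  rw [num_append, num_append, num_append, List.length_append, h1, h2, pow_add]
  linear_combination h3 + 2 ^ Y.length * h6

/-- repetition -/
def rep (k : ℕ) (L : List (Fin 2)) : List (Fin 2) := (List.replicate k L).flatten

theorem rep_succ (k : ℕ) (L : List (Fin 2)) : rep (k + 1) L = L ++ rep k L := by
  simp [rep, List.replicate_succ]

theorem rep_count (k : ℕ) (L : List (Fin 2)) (a : Fin 2) : (rep k L).count a = k * L.count a := by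
  induction k with
  | zero => simp [rep]
  | succ k ih =>
    rw [rep_succ, List.count_append, ih]
    ring

theorem Blk.rep {δ : ℤ} {X Z Y : List (Fin 2)} (h : Blk δ X Z Y δ) (k : ℕ) :
    Blk δ (rep k X) (rep k Z) (rep k Y) δ := by
  induction k with
  | zero => exact ⟨rfl, rfl, by simp [D2.rep, num]⟩
  | succ k ih =>
    rw [rep_succ, rep_succ, rep_succ]
    exact h.app ih

theorem Blk.same (R : List (Fin 2)) : Blk 0 R R R 0 := ⟨rfl, rfl, by ring⟩

variable {n : ℕ} {B : Finset (Fin n → Fin 2)}

/-- the list is a word of `B` -/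
def Mem (B : Finset (Fin n → Fin 2)) (L : List (Fin 2)) : Prop := ∃ u ∈ B, List.ofFn u = L

theorem val_succ {n : ℕ} (t : Fin (n + 1) → Fin 2) :
    DS.val t = (t 0 : ℕ) + 2 * DS.val (fun i : Fin n => t i.succ) := by
  unfold DS.val
  rw [Fin.sum_univ_succ, mul_sum]
  congr 1
  · simp
  · refine sum_congr rfl fun i _ => ?_
    rw [Fin.val_succ, pow_succ]
    ring

theorem num_ofFn : ∀ {n : ℕ} (u : Fin n → Fin 2), num (List.ofFn u) = ((DS.val u : ℕ) : ℤ) := by
  intro n
  induction n with
  | zero => intro u; simp [num, DS.val]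
  | succ n ih =>
    intro u
    rw [List.ofFn_succ, num, ih, val_succ]
    push_cast
    ring

theorem count_ofFn {n : ℕ} (f : Fin n → Fin 2) (b : Fin 2) :
    (List.ofFn f).count b = (univ.filter (fun i => f i = b)).card := by
  have h : ((univ : Finset (Fin n)).val.map f : Multiset (Fin 2)) = (List.ofFn f : Multiset (Fin 2)) :=
    Fin.univ_val_map f
  rw [← Multiset.coe_count, ← h, Multiset.count_map, Finset.card_def, Finset.filter_val]
  congr 1
  exact Multiset.filter_congr fun x _ => eq_comm

theorem mem_perm (hS : SymW B) {L M : List (Fin 2)} (h : L.Perm M) (hL : Mem B L) : Mem B M := by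
  obtain ⟨u, hu, rfl⟩ := hL
  have hlen : M.length = n := by rw [← h.length_eq, List.length_ofFn]
  subst hlen
  obtain ⟨σ, hσ⟩ := Pool.Agent.H287R3.RA.AP.exists_perm M.get u (by
    intro b
    rw [Fintype.card_subtype, Fintype.card_subtype, ← count_ofFn, ← count_ofFn, List.ofFn_get, h.count_eq])
  refine ⟨fun i => u (σ i), hS σ u hu, ?_⟩
  rw [← funext hσ, List.ofFn_get]

/-- the word `0^i 1^j` -/
def ty (i j : ℕ) : List (Fin 2) := List.replicate i 0 ++ List.replicate j 1

/-- `B` contains the words with `i` zeros and `j` ones -/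
def Ty (B : Finset (Fin n → Fin 2)) (i j : ℕ) : Prop := Mem B (ty i j)

theorem perm_ty {L : List (Fin 2)} {i j : ℕ} (h0 : L.count 0 = i) (h1 : L.count 1 = j) :
    (ty i j).Perm L := by
  rw [List.perm_iff_count]
  intro a
  fin_cases a <;> simp [ty, List.count_append, List.count_replicate, h0, h1]

theorem Ty.mem (hS : SymW B) {L : List (Fin 2)} {i j : ℕ} (hT : Ty B i j) (h0 : L.count 0 = i)
    (h1 : L.count 1 = j) : Mem B L := mem_perm hS (perm_ty h0 h1) hT

theorem Ty.of (hS : SymW B) {u : Fin n → Fin 2} (hu : u ∈ B) :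
    Ty B (univ.filter (fun i => u i = 0)).card (univ.filter (fun i => u i = 1)).card := by
  refine mem_perm hS (perm_ty ?_ ?_).symm ⟨u, hu, rfl⟩ <;> exact count_ofFn _ _

theorem conflict (hF : FreeW B) {X Z Y : List (Fin 2)} (h : Blk 0 X Z Y 0) (hX : Mem B X) (hZ : Mem B Z)
    (hY : Mem B Y) : X = Z := by
  obtain ⟨u, hu, rfl⟩ := hX
  obtain ⟨w, hw, rfl⟩ := hZ
  obtain ⟨v, hv, rfl⟩ := hY
  have h1 := h.2.2
  rw [num_ofFn, num_ofFn, num_ofFn] at h1
  have h2 : DS.val u + DS.val w = 2 * DS.val v := by
    have h3 : ((DS.val u : ℕ) : ℤ) + ((DS.val w : ℕ) : ℤ) = 2 * ((DS.val v : ℕ) : ℤ) := by linarith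
    exact_mod_cast h3
  rw [hF u hu v hv w hw h2]

/-! ### Conflicts -/

theorem ca (hF : FreeW B) (hS : SymW B) {i j : ℕ} (h : Ty B (i + 2) (j + 2)) : False := by
  have hb : Blk 0 ([0, 1, 1, 0] ++ ty i j) ([0, 0, 1, 1] ++ ty i j) ([1, 0, 0, 1] ++ ty i j) 0 :=
    Blk.app ⟨rfl, rfl, by decide⟩ (Blk.same _)
  have e := conflict hF hb (h.mem hS (by simp [ty, List.count_replicate]) (by simp [ty, List.count_replicate]))
    (h.mem hS (by simp [ty, List.count_replicate]) (by simp [ty, List.count_replicate]))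
    (h.mem hS (by simp [ty, List.count_replicate]) (by simp [ty, List.count_replicate]))
  simp at e

theorem cb (hF : FreeW B) (hS : SymW B) {m : ℕ} (h : Ty B (m + 2) 0) (h' : Ty B (m + 1) 1) : False := by
  have hb : Blk 0 ([0, 0] ++ ty m 0) ([0, 1] ++ ty m 0) ([1, 0] ++ ty m 0) 0 :=
    Blk.app ⟨rfl, rfl, by decide⟩ (Blk.same _)
  have e := conflict hF hb (h.mem hS (by simp [ty, List.count_replicate]) (by simp [ty, List.count_replicate]))
    (h'.mem hS (by simp [ty, List.count_replicate]) (by simp [ty, List.count_replicate]))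
    (h'.mem hS (by simp [ty, List.count_replicate]) (by simp [ty, List.count_replicate]))
  simp at e

theorem cb' (hF : FreeW B) (hS : SymW B) {m : ℕ} (h : Ty B 0 (m + 2)) (h' : Ty B 1 (m + 1)) : False := by
  have hb : Blk 0 ([1, 1] ++ ty 0 m) ([1, 0] ++ ty 0 m) ([0, 1] ++ ty 0 m) 0 :=
    Blk.app ⟨rfl, rfl, by decide⟩ (Blk.same _)
  have e := conflict hF hb (h.mem hS (by simp [ty, List.count_replicate]) (by simp [ty, List.count_replicate]))
    (h'.mem hS (by simp [ty, List.count_replicate]) (by simp [ty, List.count_replicate]))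
    (h'.mem hS (by simp [ty, List.count_replicate]) (by simp [ty, List.count_replicate]))
  simp at e

theorem cc (hF : FreeW B) (hS : SymW B) {m : ℕ} (h : Ty B 0 (m + 2)) (h' : Ty B (m + 1) 1) : False := by
  have k1 : Blk 0 [1] [1] [0] 1 := ⟨rfl, rfl, by decide⟩
  have k2 : Blk 1 [0] [1] [0] 1 := ⟨rfl, rfl, by decide⟩
  have k3 : Blk 1 [0] [1] [1] 0 := ⟨rfl, rfl, by decide⟩
  have k := k1.app ((k2.rep m).app k3)
  have e := conflict hF k
    (h'.mem hS (by simp [rep_count]) (by simp [rep_count]))
    (h.mem hS (by simp [rep_count]) (by simp [rep_count]; try ring))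
    (h'.mem hS (by simp [rep_count]; try ring) (by simp [rep_count]))
  have e1 := congrArg (List.count 0) e
  simp [rep_count] at e1

theorem cc' (hF : FreeW B) (hS : SymW B) {m : ℕ} (h : Ty B (m + 2) 0) (h' : Ty B 1 (m + 1)) : False := by
  have k1 : Blk 0 [0] [0] [1] (-1) := ⟨rfl, rfl, by decide⟩
  have k2 : Blk (-1) [1] [0] [1] (-1) := ⟨rfl, rfl, by decide⟩
  have k3 : Blk (-1) [1] [0] [0] 0 := ⟨rfl, rfl, by decide⟩
  have k := k1.app ((k2.rep m).app k3)
  have e := conflict hF k
    (h'.mem hS (by simp [rep_count]) (by simp [rep_count]))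
    (h.mem hS (by simp [rep_count]; try ring) (by simp [rep_count]))
    (h'.mem hS (by simp [rep_count]) (by simp [rep_count]; try ring))
  have e1 := congrArg (List.count 1) e
  simp [rep_count] at e1

theorem cd (hF : FreeW B) (hS : SymW B) {m : ℕ} (h : Ty B (m + 2) 1) (h' : Ty B 1 (m + 2)) : False := by
  have k0 : Blk 0 [0, 1] [0, 1] [0, 0] 1 := ⟨rfl, rfl, by decide⟩
  have k2 : Blk 1 [0] [1] [0] 1 := ⟨rfl, rfl, by decide⟩
  have k3 : Blk 1 [0] [1] [1] 0 := ⟨rfl, rfl, by decide⟩
  have k := k0.app ((k2.rep m).app k3)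
  have e := conflict hF k
    (h.mem hS (by simp [rep_count]; try ring) (by simp [rep_count]))
    (h'.mem hS (by simp [rep_count]) (by simp [rep_count]; try ring))
    (h.mem hS (by simp [rep_count]; try ring) (by simp [rep_count]))
  have e1 := congrArg (List.count 1) e
  simp [rep_count] at e1

/-! ### Counting -/

theorem fin2 (a : Fin 2) : a = 0 ∨ a = 1 := by
  fin_cases a <;> simp

theorem card_zeros (u : Fin n → Fin 2) :
    (univ.filter (fun i => u i = 0)).card + (univ.filter (fun i => u i = 1)).card = n := by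
  have h1 : univ.filter (fun i => u i = 1) = univ.filter (fun i => ¬ u i = 0) := by
    refine filter_congr fun i _ => ?_
    rcases fin2 (u i) with h | h <;> simp [h]
  rw [h1, card_filter_add_card_filter_not, card_univ, Fintype.card_fin]

/-- the words with exactly one letter `a`, all others `b` -/
theorem card_one (B : Finset (Fin n → Fin 2)) (a b : Fin 2) (hab : ∀ x : Fin 2, x ≠ a → x = b)
    (h : ∀ u ∈ B, (univ.filter (fun i => u i = a)).card = 1) : #B ≤ n := by
  classical
  have h1 : B ⊆ univ.image (fun k : Fin n => fun t : Fin n => if t = k then a else b) := by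
    intro u hu
    obtain ⟨k, hk⟩ := card_eq_one.1 (h u hu)
    rw [mem_image]
    refine ⟨k, mem_univ _, ?_⟩
    funext t
    have h2 : t ∈ univ.filter (fun i => u i = a) ↔ t = k := by rw [hk, mem_singleton]
    rw [mem_filter] at h2
    by_cases h3 : t = k
    · rw [if_pos h3, (h2.2 h3).2]
    · rw [if_neg h3]
      exact (hab _ fun h4 => h3 (h2.1 ⟨mem_univ _, h4⟩)).symm
  refine (card_le_card h1).trans (card_image_le.trans ?_)
  rw [card_univ, Fintype.card_fin]

theorem exact2 {n : ℕ} {B : Finset (Fin n → Fin 2)} (hF : FreeW B) (hS : SymW B) (hn : 2 ≤ n) :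
    #B ≤ n := by
  classical
  obtain ⟨m, rfl⟩ : ∃ m, n = m + 2 := ⟨n - 2, by omega⟩
  -- the types
  have hty : ∀ u ∈ B, ∃ i, (univ.filter (fun t => u t = 1)).card = i ∧ i ≤ m + 2 ∧
      (univ.filter (fun t => u t = 0)).card = m + 2 - i ∧ Ty B (m + 2 - i) i := by
    intro u hu
    have h1 := card_zeros u
    refine ⟨_, rfl, by omega, by omega, ?_⟩
    have h2 := Ty.of hS hu
    have h3 : (univ.filter (fun i => u i = 0)).card = m + 2 - (univ.filter (fun i => u i = 1)).card := by omega
    rwa [h3] at h2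
  have hmid : ∀ u ∈ B, (univ.filter (fun t => u t = 1)).card = 0 ∨
      (univ.filter (fun t => u t = 1)).card = 1 ∨ (univ.filter (fun t => u t = 1)).card = m + 1 ∨
      (univ.filter (fun t => u t = 1)).card = m + 2 := by
    intro u hu
    obtain ⟨i, h1, h2, h3, h4⟩ := hty u hu
    rw [h1]
    by_contra hcon
    obtain ⟨i', rfl⟩ : ∃ i', i = i' + 2 := ⟨i - 2, by omega⟩
    obtain ⟨j, hj⟩ : ∃ j, m + 2 - (i' + 2) = j + 2 := ⟨m + 2 - (i' + 2) - 2, by omega⟩
    rw [hj] at h4
    exact ca hF hS h4
  by_cases A1 : ∃ u ∈ B, (univ.filter (fun t => u t = 1)).card = 1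
  · obtain ⟨u, hu, hu1⟩ := A1
    obtain ⟨i, h1, h2, h3, h4⟩ := hty u hu
    have hi : i = 1 := h1.symm.trans hu1
    subst hi
    have hT1 : Ty B (m + 1) 1 := h4
    refine card_one B 1 0 (fun x hx => (fin2 x).resolve_right hx) fun v hv => ?_
    obtain ⟨j, g1, g2, g3, g4⟩ := hty v hv
    rcases hmid v hv with h | h | h | h
    · exfalso
      have hj : j = 0 := g1.symm.trans h
      subst hj
      exact cb hF hS g4 hT1
    · exact h
    · have hj : j = m + 1 := g1.symm.trans h
      subst hj
      have e1 : m + 2 - (m + 1) = 1 := by omega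
      rw [e1] at g4
      rcases m with _ | m
      · exact h
      · exact (cd hF hS hT1 g4).elim
    · exfalso
      have hj : j = m + 2 := g1.symm.trans h
      subst hj
      rw [Nat.sub_self] at g4
      exact cc hF hS g4 hT1
  · by_cases A2 : ∃ u ∈ B, (univ.filter (fun t => u t = 1)).card = m + 1
    · obtain ⟨u, hu, hu1⟩ := A2
      obtain ⟨i, h1, h2, h3, h4⟩ := hty u hu
      have hi : i = m + 1 := h1.symm.trans hu1
      subst hi
      have e1 : m + 2 - (m + 1) = 1 := by omega
      rw [e1] at h4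
      refine card_one B 0 1 (fun x hx => (fin2 x).resolve_left hx) fun v hv => ?_
      obtain ⟨j, g1, g2, g3, g4⟩ := hty v hv
      rcases hmid v hv with h | h | h | h
      · exfalso
        have hj : j = 0 := g1.symm.trans h
        subst hj
        exact cc' hF hS g4 h4
      · exact absurd ⟨v, hv, h⟩ A1
      · rw [g3, g1.symm.trans h]
        omega
      · exfalso
        have hj : j = m + 2 := g1.symm.trans h
        subst hj
        rw [Nat.sub_self] at g4
        exact cb' hF hS g4 h4
    · have h1 : B ⊆ {fun _ => 0, fun _ => 1} := by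
        intro u hu
        rw [mem_insert, mem_singleton]
        have h0 := card_zeros u
        rcases hmid u hu with h | h | h | h
        · left
          funext t
          refine (fin2 (u t)).resolve_right fun h2 => ?_
          rw [card_eq_zero, filter_eq_empty_iff] at h
          exact h (mem_univ t) h2
        · exact absurd ⟨u, hu, h⟩ A1
        · exact absurd ⟨u, hu, h⟩ A2
        · right
          funext t
          refine (fin2 (u t)).resolve_left fun h2 => ?_
          have h3 : (univ.filter (fun i => u i = 0)).card = 0 := by omega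
          rw [card_eq_zero, filter_eq_empty_iff] at h3
          exact h3 (mem_univ t) h2
      refine (card_le_card h1).trans (card_le_two.trans (by omega))

theorem pow_two_sum {i j k : ℕ} (h : 2 ^ i + 2 ^ j = 2 * 2 ^ k) : i = j := by
  have key : ∀ i j k : ℕ, 2 ^ i + 2 ^ j = 2 * 2 ^ k → ¬ i < j := by
    intro i j k h hij
    have h1 : 2 ^ i < 2 ^ j := Nat.pow_lt_pow_right (by norm_num) hij
    have h0 : 0 < 2 ^ i := by positivity
    have h2 : 2 ^ j < 2 ^ (k + 1) := by
      rw [pow_succ]
      omega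
    have h3 : j < k + 1 := (Nat.pow_lt_pow_iff_right (by norm_num)).1 h2
    have h4 : 2 ^ j ≤ 2 ^ k := Nat.pow_le_pow_right (by norm_num) (by omega)
    omega
  rcases lt_trichotomy i j with h1 | h1 | h1
  · exact absurd h1 (key i j k h)
  · exact h1
  · exact absurd h1 (key j i k (by rw [add_comm]; exact h))

theorem lower2 (n : ℕ) : ∃ B : Finset (Fin n → Fin 2), FreeW B ∧ SymW B ∧ #B = n := by
  classical
  have hval : ∀ k : Fin n, DS.val (fun t : Fin n => if t = k then (1 : Fin 2) else 0) = 2 ^ (k : ℕ) := by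
    intro k
    unfold DS.val
    rw [sum_eq_single k]
    · simp
    · intro t _ ht
      simp [ht]
    · intro h
      exact absurd (mem_univ _) h
  refine ⟨univ.image (fun k : Fin n => fun t : Fin n => if t = k then (1 : Fin 2) else 0), ?_, ?_, ?_⟩
  · intro u hu v hv w hw h
    rw [mem_image] at hu hv hw
    obtain ⟨i, _, rfl⟩ := hu
    obtain ⟨k, _, rfl⟩ := hv
    obtain ⟨j, _, rfl⟩ := hw
    rw [hval, hval, hval] at h
    have := Fin.ext (pow_two_sum h)
    rw [this]
  · intro σ u hu
    rw [mem_image] at hu ⊢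
    obtain ⟨k, _, rfl⟩ := hu
    refine ⟨σ.symm k, mem_univ _, ?_⟩
    funext t
    simp only
    congr 1
    rw [Equiv.eq_symm_apply]
  · rw [card_image_of_injective, card_univ, Fintype.card_fin]
    intro i j h
    have h1 := congrFun h i
    simp only [if_true] at h1
    by_contra hij
    rw [if_neg hij] at h1
    exact absurd h1 (by decide)

end Pool.Agent.L5helper7.D2
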